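import Pool.Agent.H380.BG.Lawz
import Pool.Agent.H331.BG.Psi
import Pool.Agent.H32.BG.Sto

/-!
# Ramanujan's Xi-function: the zeros of the de Bruijn-Newman flow at every negative time

`Δ(iy) = e^(-2πy) ∏ (1 - e^(-2πny))^24` and `Ξ(z) = ∫_0^∞ Δ(iy) y^(6+iz-1) dy`; substituting
`y = e^u`, `Ξ(z) = ∫ Φ(u) e^(izu) du` with `Φ(u) = e^(6u) Δ(i e^u)`. The de Bruijn-Newman flow of `Ξ` is
`H_t(z) = ∫ e^(t u²) Φ(u) e^(izu) du`, so that `H_0 = Ξ` and Ramanujan's hypothesis says that all the zeros
of `H_0` are real.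

**Theorem.** Let `t < 0` and let `N(R)` be the number of the zeros `z` of `H_t` with `|z| ≤ R`
(with multiplicity). Then `N(R) / (R log R) → 2/π`. For `1/2 < a ≤ b ≤ 1` the proportion of the zeros with
`|z| ≤ R` for which `Im z` lies between `a · 2|t| log R` and `b · 2|t| log R` tends to `(b - a)/2`, and the
same is true of `-Im z`. Hence for every `ε > 0` at least `(1/2 - ε) N(R)` of the zeros with `|z| ≤ R` are
not real, for large `R`.

So, whereas `H_t` has only real zeros for large `t > 0`, at every negative time at least half of the zeros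
of `H_t` are not real, and their distribution in the region `Im z > |t| log R` is found exactly.

The analytic theorem for functions with Euler product and functional equation was proved in project `BG`
of an earlier run (modules `W475/BG`, `W50/BG`, `W962/BG` ...), but for one step (`S_STI`, Stirling) and
without an instance. Here the step is proved and the hypotheses of the theorem are verified for `Δ` without
Deligne's bound: mean squares of `τ(n)/n^(11/2)` in intervals `(x, x+h]`, `h ≥ x/(log x)³`, and over primes,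
from the Rankin-Selberg integral of `|Δ|² y^12` with its functional equation.
-/

set_option autoImplicit false

open Complex MeasureTheory Filter Topology Set

namespace Pool.Agent.Results.MP_cd509c_nt.HeatFlowZeros

/-- `Δ(iy) = e^(-2πy) ∏ (1 - e^(-2πny))^24`. -/
noncomputable def Delta (y : ℝ) : ℝ :=
  Real.exp (-2 * Real.pi * y) * ∏' n : ℕ, (1 - Real.exp (-2 * Real.pi * ((n : ℝ) + 1) * y)) ^ 24

/-- Ramanujan's Xi-function `Ξ(z) = ∫_0^∞ Δ(iy) y^(6+iz-1) dy`. -/
noncomputable def Xi (z : ℂ) : ℂ := mellin (fun y : ℝ => ((Delta y : ℝ) : ℂ)) (6 + I * z)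

/-- The de Bruijn-Newman flow `H_t(z) = ∫ e^(t u²) e^(6u) Δ(i e^u) e^(izu) du`. -/
noncomputable def H (t : ℝ) (z : ℂ) : ℂ :=
  ∫ u : ℝ, ((Real.exp (t * u ^ 2 + 6 * u) * Delta (Real.exp u) : ℝ) : ℂ) * cexp (I * z * u)

/-- The zeros of `H_t` with absolute value at most `R`. -/
def Zeros (t R : ℝ) : Set ℂ := {z : ℂ | H t z = 0 ∧ ‖z‖ ≤ R}

/-- The number of zeros of `H_t` in `A`, with multiplicity. -/
noncomputable def N (t : ℝ) (A : Set ℂ) : ℝ := ((∑ᶠ z ∈ A, analyticOrderNatAt (H t) z : ℕ) : ℝ)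

/-- **Main theorem.** `H_0 = Ξ`. For every `t < 0` the function `H_t` is entire, it has finitely many
zeros in every disc, and
* `N(R) / (R log R) → 2/π`, where `N(R)` is the number of zeros with `|z| ≤ R`;
* for `1/2 < a ≤ b ≤ 1` the proportion of the zeros with `|z| ≤ R` and
  `a · 2|t| log R ≤ Im z ≤ b · 2|t| log R` tends to `(b - a)/2`, and the same for `-Im z`;
* for every `ε > 0`, if `R` is large, at least `(1/2 - ε) N(R)` of the zeros with `|z| ≤ R` are not
  real. -/
theorem result :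
    (∀ z : ℂ, H 0 z = Xi z) ∧
    ∀ t : ℝ, t < 0 →
      Differentiable ℂ (H t) ∧
      (∀ R : ℝ, (Zeros t R).Finite) ∧
      Tendsto (fun R : ℝ => N t (Zeros t R) / (R * Real.log R)) atTop (𝓝 (2 / Real.pi)) ∧
      (∀ a b : ℝ, 1 / 2 < a → a ≤ b → b ≤ 1 →
        Tendsto (fun R : ℝ => N t {z | z ∈ Zeros t R ∧
          a * (2 * |t| * Real.log R) ≤ z.im ∧ z.im ≤ b * (2 * |t| * Real.log R)} /
            N t (Zeros t R)) atTop (𝓝 ((b - a) / 2)) ∧
        Tendsto (fun R : ℝ => N t {z | z ∈ Zeros t R ∧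
          a * (2 * |t| * Real.log R) ≤ -z.im ∧ -z.im ≤ b * (2 * |t| * Real.log R)} /
            N t (Zeros t R)) atTop (𝓝 ((b - a) / 2))) ∧
      ∀ ε : ℝ, 0 < ε → ∀ᶠ R : ℝ in atTop,
        (1 / 2 - ε) * N t (Zeros t R) ≤ N t {z | z ∈ Zeros t R ∧ z.im ≠ 0} := by
  refine ⟨Pool.Agent.H380.BG.H_zero, fun t ht => ?_⟩
  have h := Pool.Agent.H380.BG.law_z (Pool.Agent.H32.BG.Sto.t_STO Pool.Agent.H331.BG.t_PSI) (-t)
    (by linarith)
  rw [neg_neg] at h
  rw [abs_of_neg ht]
  exact h

end Pool.Agent.Results.MP_cd509c_nt.HeatFlowZeros
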