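import Pool.Agent.H424.DX.Inst
import Pool.Agent.H424.DX.Crit

set_option autoImplicit false

/-!
# Ramanujan's Xi-function: Jensen polynomials

`Δ(iy) = e^(-2πy) ∏ (1 - e^(-2πny))^24`, `Λ(s) = ∫_0^∞ Δ(iy) y^(s-1) dy = (2π)^(-s) Γ(s) L(Δ, s)` and
`Ξ(z) = Λ(6 + iz)`, an even entire function.  Ramanujan's hypothesis (RH) says that all the zeros of `Ξ` are
real.  Let `γ(n) = (-1)^n n! Ξ^(2n)(0) / (2n)!`, so that `Ξ(z) = ∑ γ(n) (-z²)^n / n!`, and let
`J^{d,n}(X) = ∑_{j ≤ d} (d choose j) γ(n + j) X^j`.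

**Theorem.** All `γ(n)` are positive real numbers.  RH is true if and only if for all `d` and `n` all complex
zeros of `J^{d,n}` are real (the criterion of Jensen and Pólya).  For every `ε > 0` there is a constant `K`
such that `J^{d,n}` has degree `d` and only real zeros for all `d ≥ 1` and all `n ≥ (1/4 + ε) log d + K`.

The third part is unconditional.  It uses the engine of `MP_db1c88_nt.JensenLogRange` (helper477;
modules `Pool/Agent/H477/Jen/*`), which was made for the Riemann xi-function, and the following facts on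
Ramanujan's function, all proved here without Deligne's theorem: Hecke's mean square bound
`∑_{n ≤ N} τ(n)² = O(N^12)` (Parseval on horizontal lines), which gives absolute convergence of `L(Δ, s)` and
of its Euler product for `Re s > 13/2`, upper and lower bounds for `|L(Δ, s)|` in `Re s ≥ 13/2 + δ`, and
polynomial growth in `Re s ≥ 4`.  The Hecke relations are those of Mordell (library module `X3/Tau`,
`Pool/Agent/H575/RD/D1-D3`).
-/

open Complex Filter Topology Polynomial

namespace Pool.Agent.Results.MP_cd509c_nt.JensenPolynomials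

/-- `Δ(iy) = e^(-2πy) ∏ (1 - e^(-2πny))^24`. -/
noncomputable def Delta (y : ℝ) : ℝ :=
  Real.exp (-2 * Real.pi * y) * ∏' n : ℕ, (1 - Real.exp (-2 * Real.pi * ((n : ℝ) + 1) * y)) ^ 24

/-- The completed `L`-function `Λ(s) = ∫_0^∞ Δ(iy) y^(s-1) dy = (2π)^(-s) Γ(s) L(Δ, s)`. -/
noncomputable def Lam (s : ℂ) : ℂ := mellin (fun y : ℝ => ((Delta y : ℝ) : ℂ)) s

/-- Ramanujan's Xi-function `Ξ(z) = Λ(6 + iz)`. -/
noncomputable def Xi (z : ℂ) : ℂ := Lam (6 + I * z)

/-- Ramanujan's hypothesis: all the zeros of `Ξ` are real. -/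
def RH : Prop := ∀ z : ℂ, Xi z = 0 → z.im = 0

/-- The coefficients `γ(n) = (-1)^n n! Ξ^(2n)(0) / (2n)!`, so that `Ξ(z) = ∑ γ(n) (-z²)^n / n!`. -/
noncomputable def gamma (n : ℕ) : ℂ :=
  (-1) ^ n * (n.factorial : ℂ) / ((2 * n).factorial : ℂ) * iteratedDeriv (2 * n) Xi 0

/-- The Jensen polynomial `J^{d,n}(X) = ∑_{j ≤ d} (d choose j) γ(n + j) X^j`. -/
noncomputable def jensen (d n : ℕ) : ℂ[X] :=
  ∑ j ∈ Finset.range (d + 1), C ((d.choose j : ℂ) * gamma (n + j)) * X ^ j

open Pool.Agent.H424.DX Pool.Agent.H477.Jen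
open Pool.Agent.Helper242.KK (FT)

theorem Xi_eq : Xi = FT wD := by
  funext z
  rw [FT_wD]
  rfl

theorem gamma_eq (n : ℕ) : gamma n = ((gam wD n : ℝ) : ℂ) := by
  have h1 : iteratedDeriv (2 * n) (FT wD) 0 = (mom wD (2 * n) : ℂ) * I ^ (2 * n) := by
    rw [iteratedDeriv_of_hasSum (c := 0) (f := FT wD) (fun u => by simpa using ker_wD.hasSum u) (2 * n)]
    have : (((2 * n).factorial : ℕ) : ℂ) ≠ 0 := by exact_mod_cast (2 * n).factorial_ne_zero
    field_simp
  rw [gamma, Xi_eq, h1, gam, pow_mul, I_sq]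
  have h2 : ((-1 : ℂ) ^ n) * (-1) ^ n = 1 := by rw [← mul_pow]; simp
  push_cast
  linear_combination ((n.factorial : ℂ) / ((2 * n).factorial : ℂ) * (mom wD (2 * n) : ℂ)) * h2

theorem gamma_ne (n : ℕ) : gamma n ≠ 0 := by
  rw [gamma_eq]
  exact_mod_cast (ker_wD.gam_pos n).ne'

theorem jensen_natDegree (d n : ℕ) : (jensen d n).natDegree = d := by
  have hc : (jensen d n).coeff d ≠ 0 := by
    rw [jensen, finsetSum_coeff]
    simp only [coeff_C_mul_X_pow]
    rw [Finset.sum_eq_single d]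
    · simp [gamma_ne]
    · intro b _ hb
      simp [hb.symm]
    · simp
  refine natDegree_eq_of_le_of_coeff_ne_zero ?_ hc
  refine natDegree_sum_le_of_forall_le _ _ fun j hj => ?_
  exact (natDegree_C_mul_X_pow_le _ _).trans (Nat.lt_succ_iff.1 (Finset.mem_range.1 hj))

theorem isRoot_iff (d n : ℕ) (z : ℂ) : (jensen d n).IsRoot z ↔
    ∑ j ∈ Finset.range (d + 1), (d.choose j : ℂ) * (gam wD (n + j) : ℂ) * z ^ j = 0 := by
  rw [IsRoot.def, jensen, eval_finsetSum]
  have h1 : ∑ j ∈ Finset.range (d + 1), eval z (C ((d.choose j : ℂ) * gamma (n + j)) * X ^ j) =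
      ∑ j ∈ Finset.range (d + 1), (d.choose j : ℂ) * (gam wD (n + j) : ℂ) * z ^ j := by
    refine Finset.sum_congr rfl fun j _ => ?_
    rw [gamma_eq]
    simp only [eval_mul, eval_C, eval_pow, eval_X]
  rw [h1]

theorem RH_iff {F : ℂ → ℂ} (hF : IsF wD F) : RH ↔ ∀ x : ℂ, F x = 0 → x.im = 0 := by
  constructor
  · intro h x hx
    obtain ⟨z, hz⟩ : ∃ z : ℂ, z ^ 2 = -x := ⟨(-x) ^ (((2 : ℕ) : ℂ)⁻¹),
      Complex.cpow_nat_inv_pow (-x) two_ne_zero⟩
    have e : x = -z ^ 2 := by rw [hz, neg_neg]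
    have h1 : Xi z = 0 := by
      rw [Xi_eq, ← hF.eq, ← e, hx]
    have h2 := h z h1
    rw [e, neg_im, sq, mul_im, h2]
    simp
  · intro h z hz
    rw [Xi_eq, ← hF.eq] at hz
    have h1 := h _ hz
    rw [neg_im, sq, mul_im] at h1
    have h2 : z.re * z.im = 0 := by linarith
    rcases mul_eq_zero.1 h2 with h3 | h3
    · -- a purely imaginary zero is impossible: `F > 0` on the nonnegative axis
      exfalso
      have e : -z ^ 2 = ((z.im ^ 2 : ℝ) : ℂ) := by
        have hzz : z = z.im * I := by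
          apply Complex.ext <;> simp [h3]
        rw [hzz, mul_pow, I_sq]
        simp
      rw [e] at hz
      have hs := hF.sum ((z.im ^ 2 : ℝ) : ℂ)
      rw [hz] at hs
      have hs' : HasSum (fun n : ℕ => (mom wD (2 * n) / (2 * n).factorial : ℝ) * (z.im ^ 2) ^ n) 0 := by
        have h5 := Complex.hasSum_re hs
        rw [zero_re] at h5
        refine h5.congr_fun fun n => ?_
        rw [← Complex.ofReal_pow, ← Complex.ofReal_mul, ofReal_re]
      have hnn : ∀ n : ℕ, 0 ≤ (mom wD (2 * n) / (2 * n).factorial : ℝ) * (z.im ^ 2) ^ n := fun n => by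
        have := (ker_wD.mom_pos n).le
        positivity
      have h6 := le_hasSum hs' 0 (fun n _ => hnn n)
      have h7 := ker_wD.mom_pos 0
      simp at h6 h7
      linarith
    · exact h3

/-- **Jensen polynomials of Ramanujan's Xi-function.** (1) The coefficients `γ(n)` are positive real numbers.
(2) Ramanujan's hypothesis is equivalent to the reality of all zeros of all Jensen polynomials.
(3) For every `ε > 0` there is `K` such that for all `d ≥ 1` and `n ≥ (1/4 + ε) log d + K` the Jensen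
polynomial `J^{d,n}` has degree `d` and all its complex zeros are real. -/
theorem result :
    (∀ n : ℕ, ∃ c : ℝ, 0 < c ∧ gamma n = c) ∧
    (RH ↔ ∀ d n : ℕ, ∀ z : ℂ, (jensen d n).IsRoot z → z.im = 0) ∧
    ∀ ε : ℝ, 0 < ε → ∃ K : ℝ, ∀ d n : ℕ, 1 ≤ d → (1 / 4 + ε) * Real.log d + K ≤ n →
      (jensen d n).natDegree = d ∧ ∀ z : ℂ, (jensen d n).IsRoot z → z.im = 0 := by
  refine ⟨fun n => ⟨gam wD n, ker_wD.gam_pos n, gamma_eq n⟩, ?_, fun ε hε => ?_⟩
  · obtain ⟨F, hF⟩ := ker_wD.exists_F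
    rw [RH_iff hF, crit ker_wD hF]
    constructor
    · exact fun h d n z hz => h d n z ((isRoot_iff d n z).1 hz)
    · exact fun h d n z hz => h d n z ((isRoot_iff d n z).2 hz)
  · obtain ⟨K, hK⟩ := jensen_D ε hε
    exact ⟨K, fun d n hd hn => ⟨jensen_natDegree d n, fun z hz => hK d n hd hn z ((isRoot_iff d n z).1 hz)⟩⟩

end Pool.Agent.Results.MP_cd509c_nt.JensenPolynomials
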