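import Pool.Agent.H454.PH.All
import Pool.Agent.H454.PF.DE
import Pool.Agent.H454.PF.GMM

set_option autoImplicit false

/-!
# Real entire functions which are mapped to Ramanujan's Xi-function

The definitions (`LaguerrePolya`, `RealEntire`, `Operator`, `Chain`, `Rigid`, `HasRealPreimage`) are in
`Pool/Agent/H454/PH/Def.lean`: `Chain [T₁, …, T_n] X G` means `X = T₁ T₂ ⋯ T_n G`, where the `T_i` are multiplications by real polynomials
with real zeros, `φ(D)` (`φ` in the Laguerre-Pólya class), `Γ((z - b) D)` (`Γ` in the Laguerre-Pólya class with finitely many zeros in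
`[0, ∞)`) or arbitrary first order operators `p D + q` with real polynomial coefficients, `deg q ≤ deg p`.
-/

open Complex Filter Topology Polynomial MeasureTheory
open scoped ComplexConjugate
open Pool.Agent.H454.PH (Rigid HasRealPreimage)

namespace Pool.Agent.Results.MP_cd509c_nt.LaguerrePolyaPreimages

/-- `Δ(iy) = e^(-2πy) ∏ (1 - e^(-2πny))^24`. -/
noncomputable def Delta (y : ℝ) : ℝ :=
  Real.exp (-2 * Real.pi * y) * ∏' n : ℕ, (1 - Real.exp (-2 * Real.pi * ((n : ℝ) + 1) * y)) ^ 24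

/-- The completed `L`-function `Λ(s) = ∫_0^∞ Δ(iy) y^(s-1) dy = (2π)^(-s) Γ(s) L(Δ, s)`. -/
noncomputable def Lam (s : ℂ) : ℂ := mellin (fun y : ℝ => ((Delta y : ℝ) : ℂ)) s

/-- Ramanujan's Xi-function `Ξ(z) = Λ(6 + iz)`. -/
noncomputable def Xi (z : ℂ) : ℂ := Lam (6 + I * z)

/-- **Theorem.** Ramanujan's function `Ξ` is rigid: if `Ξ = T₁ ⋯ T_n G` and `G` has only finitely many non-real zeros, then
all `T_i` are elementary (multiplications and affine changes of variable), and `P(z) G(z) = Ξ(a z + b)`; and all zeros of `Ξ` are real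
iff `Ξ = T₁ ⋯ T_n G` for some `G` with real zeros only. -/
theorem result : Rigid Xi ∧ ((∀ z : ℂ, Xi z = 0 → z.im = 0) ↔ HasRealPreimage Xi) := by
  obtain ⟨F, b, hMF, hF⟩ := Pool.Agent.H734.PFDE.t_DE
  have hfull := Pool.Agent.H454.PF.full_M Pool.Agent.H878.PF.t_GMM hMF
  have hX : (Pool.Agent.N963.GN.Lt (fun u : ℝ => Pool.Agent.N963.GN.Km 1 12 F 1 (u : ℂ))) = Xi := by
    funext z
    rw [Pool.Agent.N348.GN.Lt_eq, one_mul]
    unfold Xi Lam
    have e : (((12 : ℕ) : ℂ) / 2 + I * z) = 6 + I * z := by norm_num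
    rw [e]
    unfold mellin
    refine setIntegral_congr_fun measurableSet_Ioi (fun t ht => ?_)
    have h1 : F (I * t / ((Real.sqrt ((1 : ℕ) : ℝ) : ℝ) : ℂ)) = ((Delta t : ℝ) : ℂ) := by
      rw [Nat.cast_one, Real.sqrt_one, Complex.ofReal_one, div_one, hF t ht]
      rfl
    simp only
    rw [h1]
  exact Pool.Agent.H454.PH.full hfull hX

end Pool.Agent.Results.MP_cd509c_nt.LaguerrePolyaPreimages
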