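import Pool.Agent.H575.RD.D6

/-!
# Ramanujan's Xi-function: the exact rate in the criterion of Nyman, Beurling and Báez-Duarte

`Δ(iy) = e^(-2πy) ∏ (1 - e^(-2πny))^24 = ∑ τ(n) e^(-2πny)`, `Λ(s) = ∫_0^∞ Δ(iy) y^(s-1) dy`,
`L(Δ, s) = (2π)^s Λ(s) / Γ(s) = ∑ τ(n) n^(-s)` and `Ξ(z) = Λ(6 + iz)`.  Ramanujan's hypothesis (RH) says
that all the zeros of the entire function `Ξ` are real.

For `n ≥ 1` let `dist n` be the least value of the mean square
`(1/2π) ∫ |1 - L(Δ, 6 + it) ∑_{k ≤ n} a_k k^(-1/2-it)|² dt / (1/4 + t²)` over all complex `a_1, …, a_n`,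
and `edist n` the least value of `∫_1^∞ |1 - ∑_{k ≤ n} a_k S(y/k)|² dy / y²`, where
`S(y) = ∑_{j ≤ y} τ(j) / j^(11/2)`: the squared distance of the indicator function of `(1, ∞)` to the
span of `n` dilations of one step function.  Let `B = ∑ m(γ)² / (1/4 + γ²)` over the real zeros `γ` of
`Ξ`, with multiplicities `m(γ)`, and `κ = 2 Λ'(13/2) / Λ(13/2)`.

**Theorem.** Without any hypothesis, `edist n ≤ dist n` and `liminf (edist n) log n ≥ B`.  If RH is false,
both sequences are bounded below by a positive constant; if it is true, `B` is finite and both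
`(dist n) log n` and `(edist n) log n` converge to `B`.  The limit is `κ` if and only if RH is true and
all the zeros of `Ξ` are simple.  Hence RH is true iff one of the sequences tends to `0`, iff
`(dist n) log n` (or `(edist n) log n`) does not tend to infinity.

No bound of Deligne is assumed: the Euler product uses Mordell's Hecke relations and Hecke's bound
`τ(n) = O(n^6)`, which gives Satake parameters at most `√p`.  The upper bound on RH is the new part: no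
hypothesis on the derivative of `Ξ` at its zeros, or on the multiplicities, is needed.  The analytic
theorem for entire functions with Euler product and functional equation was proved in project `GB` of
an earlier run (modules `Q286/GB` etc.); the statements on simple zeros use `H290/NB/Obj.lean`.
-/

open Complex MeasureTheory Filter Topology Set
open scoped ENNReal

set_option autoImplicit false

namespace Pool.Agent.Results.MP_cd509c_nt.NymanBeurlingDistances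

/-- Ramanujan's function: the coefficient of `q^n` in `q ∏_{i ≤ n} (1 - q^i)^24`. -/
noncomputable def tau (n : ℕ) : ℤ :=
  (Polynomial.X * ∏ i ∈ Finset.Icc 1 n, (1 - Polynomial.X ^ i) ^ 24 : Polynomial ℤ).coeff n

/-- `Δ(iy) = e^(-2πy) ∏ (1 - e^(-2πny))^24`. -/
noncomputable def Delta (y : ℝ) : ℝ :=
  Real.exp (-2 * Real.pi * y) * ∏' n : ℕ, (1 - Real.exp (-2 * Real.pi * ((n : ℝ) + 1) * y)) ^ 24

/-- The completed `L`-function `Λ(s) = ∫_0^∞ Δ(iy) y^(s-1) dy`. -/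
noncomputable def Lam (s : ℂ) : ℂ := mellin (fun y : ℝ => ((Delta y : ℝ) : ℂ)) s

/-- The `L`-function `L(Δ, s) = (2π)^s Γ(s)⁻¹ Λ(s)`. -/
noncomputable def L (s : ℂ) : ℂ := ((2 * Real.pi : ℝ) : ℂ) ^ s * (Gamma s)⁻¹ * Lam s

/-- Ramanujan's Xi-function `Ξ(z) = Λ(6 + iz)`. -/
noncomputable def Xi (z : ℂ) : ℂ := Lam (6 + I * z)

/-- Ramanujan's hypothesis: all the zeros of `Ξ` are real. -/
def RH : Prop := ∀ z : ℂ, Xi z = 0 → z.im = 0

/-- `dist n`, the infimum over all complex `a_1, …, a_n` of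
`(1/2π) ∫ |1 - L(Δ, 6 + it) ∑_{k ≤ n} a_k k^(-1/2-it)|² dt / (1/4 + t²)`. -/
noncomputable def dist (n : ℕ) : ℝ≥0∞ :=
  ⨅ a : ℕ → ℂ, ENNReal.ofReal (1 / (2 * Real.pi)) * ∫⁻ t : ℝ, ENNReal.ofReal
    (‖1 - L (6 + t * I) * ∑ k ∈ Finset.Icc 1 n, a k * (k : ℂ) ^ (-(1 / 2 + t * I : ℂ))‖ ^ 2 /
      (1 / 4 + t ^ 2))

/-- The summatory function `S(y) = ∑_{j ≤ y} τ(j) / j^(11/2)`. -/
noncomputable def S (y : ℝ) : ℝ := ∑ j ∈ Finset.Icc 1 ⌊y⌋₊, ((tau j : ℤ) : ℝ) / (j : ℝ) ^ (11 / 2 : ℝ)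

/-- `edist n`, the infimum over all complex `a_1, …, a_n` of
`∫_1^∞ |1 - ∑_{k ≤ n} a_k S(y/k)|² dy / y²`. -/
noncomputable def edist (n : ℕ) : ℝ≥0∞ :=
  ⨅ a : ℕ → ℂ, ∫⁻ y in Ioi (1 : ℝ), ENNReal.ofReal
    (‖1 - ∑ k ∈ Finset.Icc 1 n, a k * ((S (y / k) : ℝ) : ℂ)‖ ^ 2 / y ^ 2)

/-- `B = ∑ m(γ)² / (1/4 + γ²)` over the real zeros `γ` of `Ξ`, each taken once, where `m(γ)` is the
multiplicity of `γ`. -/
noncomputable def B : ℝ≥0∞ :=
  ∑' γ : {γ : ℝ // Xi γ = 0},
    ENNReal.ofReal ((analyticOrderNatAt Xi (γ : ℝ) : ℝ) ^ 2 / (1 / 4 + (γ : ℝ) ^ 2))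

/-- `κ = 2 Λ'(13/2) / Λ(13/2)` (a real number; `Λ` is positive on the real axis). -/
noncomputable def kappa : ℝ := 2 * (deriv Lam (13 / 2) / Lam (13 / 2)).re

/-- **Main theorem.**

* `Ξ` and `L` are entire, and `L(Δ, s) = ∑ τ(n) n^(-s)` for `Re s > 7`.
* `edist n ≤ dist n` for all `n`, and `B ≤ liminf (edist n) log n`.
* If RH holds then `B` is finite, and `(dist n) log n` and `(edist n) log n` converge to `B`.
* If it fails, `dist n` and `edist n` are bounded below by a positive constant.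
* `(dist n) log n → κ` if and only if RH holds and all the zeros of `Ξ` are simple; the same for
  `(edist n) log n`.
* RH holds if and only if `dist n → 0`, if and only if `edist n → 0`, if and only if
  `liminf (dist n) log n` is finite, if and only if `liminf (edist n) log n` is finite. -/
theorem result :
    (Differentiable ℂ Xi ∧ Differentiable ℂ L ∧
      ∀ s : ℂ, 7 < s.re → HasSum (fun n : ℕ => ((tau n : ℤ) : ℂ) * (n : ℂ) ^ (-s)) (L s)) ∧
    ((∀ n, edist n ≤ dist n) ∧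
      B ≤ liminf (fun n : ℕ => edist n * ENNReal.ofReal (Real.log n)) atTop) ∧
    (RH → B ≠ ⊤ ∧
      Tendsto (fun n : ℕ => dist n * ENNReal.ofReal (Real.log n)) atTop (𝓝 B) ∧
      Tendsto (fun n : ℕ => edist n * ENNReal.ofReal (Real.log n)) atTop (𝓝 B)) ∧
    (¬ RH → ∃ c : ℝ≥0∞, c ≠ 0 ∧ ∀ n, c ≤ edist n ∧ c ≤ dist n) ∧
    (Tendsto (fun n : ℕ => dist n * ENNReal.ofReal (Real.log n)) atTop (𝓝 (ENNReal.ofReal kappa)) ↔
      RH ∧ ∀ z : ℂ, Xi z = 0 → deriv Xi z ≠ 0) ∧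
    (Tendsto (fun n : ℕ => edist n * ENNReal.ofReal (Real.log n)) atTop (𝓝 (ENNReal.ofReal kappa)) ↔
      RH ∧ ∀ z : ℂ, Xi z = 0 → deriv Xi z ≠ 0) ∧
    (RH ↔ Tendsto dist atTop (𝓝 0)) ∧
    (RH ↔ Tendsto edist atTop (𝓝 0)) ∧
    (RH ↔ liminf (fun n : ℕ => dist n * ENNReal.ofReal (Real.log n)) atTop ≠ ⊤) ∧
    (RH ↔ liminf (fun n : ℕ => edist n * ENNReal.ofReal (Real.log n)) atTop ≠ ⊤) := by
  refine ⟨⟨Pool.Agent.H575.RD.XiM_diff, ?_, fun s hs => Pool.Agent.H575.RD.LM_series hs⟩, Pool.Agent.H575.RD.final⟩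
  have h2π : ((2 * Real.pi : ℝ) : ℂ) ≠ 0 := by
    have := Real.pi_pos
    exact_mod_cast (by positivity : (2 * Real.pi : ℝ) ≠ 0)
  have h1 : Differentiable ℂ fun s : ℂ => ((2 * Real.pi : ℝ) : ℂ) ^ s :=
    differentiable_id.const_cpow (Or.inl h2π)
  exact (h1.mul Complex.differentiable_one_div_Gamma).mul Pool.Agent.H575.RD.LamM_diff

end Pool.Agent.Results.MP_cd509c_nt.NymanBeurlingDistances
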